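import Pool.Agent.Helper96.SP.Defs2

/-!
# The group algebra: `e = e e^* u`
-/

namespace Pool.Agent.Helper66.EN

open Pool.Agent.Helper96.SP

theorem adj_single {n : ℕ} (g : Equiv.Perm (Fin n)) (a : ℚ) :
    adj (MonoidAlgebra.single g a) = MonoidAlgebra.single g⁻¹ a := by
  unfold adj
  rw [Finset.sum_eq_single g]
  · rw [MonoidAlgebra.coeff_single, Finsupp.single_eq_same]
  · intro h _ hne
    rw [MonoidAlgebra.coeff_single, Finsupp.single_eq_of_ne hne, MonoidAlgebra.single_zero]
  · simp

theorem adj_add {n : ℕ} (x y : QS n) : adj (x + y) = adj x + adj y := by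
  unfold adj
  rw [← Finset.sum_add_distrib]
  refine Finset.sum_congr rfl fun g _ => ?_
  rw [MonoidAlgebra.coeff_add, Finsupp.add_apply, MonoidAlgebra.single_add]

theorem adj_zero {n : ℕ} : adj (0 : QS n) = 0 := by
  unfold adj
  refine Finset.sum_eq_zero fun g _ => ?_
  rw [MonoidAlgebra.coeff_zero, Finsupp.zero_apply, MonoidAlgebra.single_zero]

theorem adj_mul {n : ℕ} (x y : QS n) : adj (x * y) = adj y * adj x := by
  induction x using MonoidAlgebra.induction_linear with
  | zero => rw [zero_mul, adj_zero, mul_zero]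
  | add a b ha hb => rw [add_mul, adj_add, adj_add, ha, hb, mul_add]
  | single g a =>
    induction y using MonoidAlgebra.induction_linear with
    | zero => rw [mul_zero, adj_zero, zero_mul]
    | add c d hc hd => rw [mul_add, adj_add, adj_add, hc, hd, add_mul]
    | single h b =>
      rw [MonoidAlgebra.single_mul_single, adj_single, adj_single, adj_single,
        MonoidAlgebra.single_mul_single, mul_inv_rev, mul_comm a b]

theorem adj_adj {n : ℕ} (x : QS n) : adj (adj x) = x := by
  induction x using MonoidAlgebra.induction_linear with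
  | zero => rw [adj_zero, adj_zero]
  | add a b ha hb => rw [adj_add, adj_add, ha, hb]
  | single g a => rw [adj_single, adj_single, inv_inv]

/-- the coefficient of the identity -/
theorem coeff_one {n : ℕ} (x : QS n) : (adj x * x).coeff 1 = ∑ g : Equiv.Perm (Fin n),
    x.coeff g ^ 2 := by
  unfold adj
  rw [Finset.sum_mul, MonoidAlgebra.coeff_sum, Finsupp.finsetSum_apply]
  refine Finset.sum_congr rfl fun g _ => ?_
  rw [MonoidAlgebra.coeff_single_mul_apply, inv_inv, mul_one, sq]

theorem eq_zero_of {n : ℕ} (x : QS n) (h : adj x * x = 0) : x = 0 := by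
  have h1 := coeff_one x
  rw [h, MonoidAlgebra.coeff_zero, Finsupp.zero_apply] at h1
  have h2 := (Finset.sum_eq_zero_iff_of_nonneg
    (fun g (_ : g ∈ Finset.univ) => sq_nonneg (x.coeff g))).1 h1.symm
  apply MonoidAlgebra.coeff_injective
  ext g
  rw [MonoidAlgebra.coeff_zero, Finsupp.zero_apply]
  exact pow_eq_zero_iff two_ne_zero |>.1 (h2 g (Finset.mem_univ g))

theorem ga {n : ℕ} (e : QS n) : ∃ u : QS n, e = e * adj e * u := by
  have hfin : Module.Finite ℚ (QS n) :=
    Module.Finite.equiv (MonoidAlgebra.coeffLinearEquiv ℚ (S := ℚ) (M := Equiv.Perm (Fin n))).symm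
  let L : QS n →ₗ[ℚ] QS n := LinearMap.mulLeft ℚ e
  let T : QS n →ₗ[ℚ] QS n := LinearMap.mulLeft ℚ (e * adj e * e)
  have hker : LinearMap.ker T = LinearMap.ker L := by
    ext a
    rw [LinearMap.mem_ker, LinearMap.mem_ker]
    change e * adj e * e * a = 0 ↔ e * a = 0
    constructor
    · intro h
      have h1 : adj e * (e * a) = 0 := by
        apply eq_zero_of
        rw [adj_mul, adj_mul, adj_adj]
        have e1 : adj a * adj e * e * (adj e * (e * a)) = adj a * adj e * (e * adj e * e * a) := by
          simp only [mul_assoc]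
        rw [e1, h, mul_zero]
      apply eq_zero_of
      rw [adj_mul, mul_assoc, h1, mul_zero]
    · intro h
      rw [mul_assoc, h, mul_zero]
  have hle : LinearMap.range T ≤ LinearMap.range L := by
    rintro _ ⟨a, rfl⟩
    refine ⟨adj e * e * a, ?_⟩
    change e * (adj e * e * a) = e * adj e * e * a
    simp only [mul_assoc]
  have hfr : Module.finrank ℚ (LinearMap.range T) = Module.finrank ℚ (LinearMap.range L) := by
    have h1 := LinearMap.finrank_range_add_finrank_ker T
    have h2 := LinearMap.finrank_range_add_finrank_ker L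
    rw [hker] at h1
    omega
  have heq : LinearMap.range T = LinearMap.range L := Submodule.eq_of_le_of_finrank_eq hle hfr
  have hmem : e ∈ LinearMap.range T := by
    rw [heq]
    exact ⟨1, mul_one e⟩
  obtain ⟨a, ha⟩ := hmem
  refine ⟨e * a, ?_⟩
  have ha' : e * adj e * e * a = e := ha
  rw [← mul_assoc]
  exact ha'.symm

end Pool.Agent.Helper66.EN
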