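import Pool.Agent.Helper96.SP.RQW

/-!
# The rational matrices of the elements of the group algebra
-/

open CategoryTheory MonoidalCategory Limits BraidedCategory

universe u v w

namespace Pool.Agent.Helper66.EN

open Pool.Agent.TH90.AB Pool.Agent.TH90.Kim Pool.Agent.Helper96.Kim Pool.Agent.Helper96.SP

set_option linter.unusedSectionVars false
set_option linter.unusedVariables false

variable {𝒜 : Type u} [Category.{v} 𝒜] [MonoidalCategory 𝒜] [SymmetricCategory 𝒜]
  [Preadditive 𝒜] [MonoidalPreadditive 𝒜] [Linear ℚ 𝒜] [MonoidalLinear ℚ 𝒜]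
  {K : Type w} [Field K] [CharZero K] {F : Realisation 𝒜 K}

theorem mat [hdual : ∀ X : 𝒜, HasRightDual X] {M : 𝒜} {φ : Fam M} (hφ : PA φ) {d : ℕ}
    (b : Module.Basis (Fin d) K (F.V M)) (δ : Fin d → ℚ) (hδ : ∀ i, δ i = 1 ∨ δ i = -1)
    (hb : ∀ i, F.par M (b i) = (δ i : K) • b i) (n : ℕ)
    (B : Module.Basis (Fin n → Fin d) K (F.V (T M n))) (hB : ∀ w, B w = wd F n fun j => b (w j)) :
    ∃ m : QS n → Matrix (Fin n → Fin d) (Fin n → Fin d) ℚ,
      (∀ x w, F.map (rh φ n x) (B w) = ∑ w', (m x w' w : K) • B w') ∧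
      (∀ x y, m (x * y) = m x * m y) ∧ (∀ x y, m (x + y) = m x + m y) ∧
      (∀ x, m (adj x) = (m x).transpose) ∧
      (∀ x w w', (∏ k, δ (w k)) ≠ ∏ k, δ (w' k) → m x w' w = 0) ∧ m 0 = 0 := by
  classical
  choose κ hκ hκ' using fun g : Equiv.Perm (Fin n) => QWX.perm_sign hφ b δ hδ hb n g
  let κ1 : Equiv.Perm (Fin n) → (Fin n → Fin d) → ℚ := fun g w => κ g fun j => δ (w j)
  have hmap : ∀ (g : Equiv.Perm (Fin n)) (w : Fin n → Fin d),
      F.map (φ n g : T M n ⟶ T M n) (B w) = (κ1 g w : K) • B (w ∘ (g⁻¹ : Equiv.Perm (Fin n))) := by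
    intro g w
    rw [hB, hB, hκ']
    rfl
  -- the sign of the inverse permutation
  have hone : ∀ (g : Equiv.Perm (Fin n)) (w : Fin n → Fin d),
      κ1 g w * κ1 g⁻¹ (w ∘ (g⁻¹ : Equiv.Perm (Fin n))) = 1 := by
    intro g w
    have h1 : F.map (φ n g⁻¹ : T M n ⟶ T M n) (F.map (φ n g : T M n ⟶ T M n) (B w)) = B w := by
      rw [← F.map_comp]
      have e : (φ n g : T M n ⟶ T M n) ≫ (φ n g⁻¹ : T M n ⟶ T M n) = 𝟙 _ := by
        have h2 := map_mul (φ n) g⁻¹ g
        rw [inv_mul_cancel, map_one] at h2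
        exact h2.symm
      rw [e, F.map_id]
    rw [hmap, _root_.map_smul, hmap, smul_smul] at h1
    have h2 : (w ∘ (g⁻¹ : Equiv.Perm (Fin n))) ∘ ((g⁻¹)⁻¹ : Equiv.Perm (Fin n)) = w := by
      funext j
      simp
    rw [h2] at h1
    have h3 := congrArg (fun z => B.repr z w) h1
    simp only [_root_.map_smul, Module.Basis.repr_self, Finsupp.smul_apply, Finsupp.single_eq_same,
      smul_eq_mul, mul_one] at h3
    exact_mod_cast h3
  have hinv : ∀ (g : Equiv.Perm (Fin n)) (w : Fin n → Fin d),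
      κ1 g⁻¹ (w ∘ (g⁻¹ : Equiv.Perm (Fin n))) = κ1 g w := by
    intro g w
    have h4 := hone g w
    rcases hκ g fun j => δ (w j) with h5 | h5 <;>
      rcases hκ g⁻¹ fun j => δ ((w ∘ (g⁻¹ : Equiv.Perm (Fin n))) j) with h6 | h6 <;>
      simp only [κ1] at h4 ⊢ <;> rw [h5, h6] at h4 ⊢ <;> norm_num at h4
  -- the matrix
  let m : QS n → Matrix (Fin n → Fin d) (Fin n → Fin d) ℚ := fun x => Matrix.of fun w' w =>
    ∑ g : Equiv.Perm (Fin n), if w ∘ (g⁻¹ : Equiv.Perm (Fin n)) = w' then x.coeff g * κ1 g w else 0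
  have hm : ∀ x w, F.map (rh φ n x) (B w) = ∑ w', (m x w' w : K) • B w' :=
    fun x w => QWX.mat B κ1 hmap x w
  have hrepr : ∀ x w w', B.repr (F.map (rh φ n x) (B w)) w' = (m x w' w : K) := by
    intro x w w'
    rw [hm x w, QWX.repr_sum B (fun w' => (m x w' w : K)) w']
  have hadj : ∀ x w w', B.repr (F.map (rh φ n (adj x)) (B w')) w = (m x w' w : K) := by
    intro x w w'
    have e1 : rh φ n (adj x) = ∑ g : Equiv.Perm (Fin n), x.coeff g • (φ n g⁻¹ : T M n ⟶ T M n) := by
      unfold adj rh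
      rw [map_sum]
      refine Finset.sum_congr rfl fun g _ => ?_
      unfold rho
      rw [MonoidAlgebra.lift_single]
    rw [e1, WD.map_sum', map_sum, Finsupp.finsetSum_apply]
    change _ = ((∑ g : Equiv.Perm (Fin n), if w ∘ (g⁻¹ : Equiv.Perm (Fin n)) = w' then
      x.coeff g * κ1 g w else 0 : ℚ) : K)
    rw [Rat.cast_sum]
    refine Finset.sum_congr rfl fun g _ => ?_
    rw [F.map_smul, hmap, _root_.map_smul, _root_.map_smul, Module.Basis.repr_self,
      Finsupp.smul_apply, Finsupp.smul_apply, Finsupp.single_apply]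
    by_cases h : w ∘ (g⁻¹ : Equiv.Perm (Fin n)) = w'
    · have h2 : w' ∘ ((g⁻¹)⁻¹ : Equiv.Perm (Fin n)) = w := by
        rw [← h]
        funext j
        simp
      rw [if_pos h, if_pos h2, ← h, hinv, smul_eq_mul, smul_eq_mul, mul_one, Rat.cast_mul]
    · have h2 : ¬ w' ∘ ((g⁻¹)⁻¹ : Equiv.Perm (Fin n)) = w := by
        intro h3
        apply h
        rw [← h3]
        funext j
        simp
      rw [if_neg h, if_neg h2, smul_zero, smul_zero, Rat.cast_zero]
  have hadd : ∀ x y, m (x + y) = m x + m y := by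
    intro x y
    ext w' w
    have h1 : (m (x + y) w' w : K) = (m x w' w : K) + (m y w' w : K) := by
      have e1 : rh φ n (x + y) = rh φ n x + rh φ n y := map_add (rho φ n) x y
      rw [← hrepr, e1, F.map_add, map_add, Finsupp.add_apply, hrepr, hrepr]
    rw [Matrix.add_apply]
    exact_mod_cast h1
  refine ⟨m, hm, fun x y => ?_, hadd, fun x => ?_, fun x w w' h => ?_, ?_⟩
  · ext w' w
    have h1 : (m (x * y) w' w : K) = ∑ v, (m x w' v : K) * (m y v w : K) := by
      have e1 : rh φ n (x * y) = rh φ n y ≫ rh φ n x := map_mul (rho φ n) x y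
      rw [← hrepr, e1, F.map_comp, hm y w, map_sum, map_sum, Finsupp.finsetSum_apply]
      refine Finset.sum_congr rfl fun v _ => ?_
      rw [_root_.map_smul, _root_.map_smul, Finsupp.smul_apply, hrepr, smul_eq_mul, mul_comm]
    rw [Matrix.mul_apply]
    exact_mod_cast h1
  · ext w' w
    have h1 : (m (adj x) w' w : K) = (m x w w' : K) := by
      rw [← hrepr, hadj]
    rw [Matrix.transpose_apply]
    exact_mod_cast h1
  · refine Finset.sum_eq_zero fun g _ => if_neg fun h2 => h ?_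
    rw [← h2]
    exact (Equiv.prod_comp (g⁻¹ : Equiv.Perm (Fin n)) fun k => δ (w k)).symm
  · have h1 := hadd 0 0
    rw [add_zero] at h1
    have h2 : m 0 + 0 = m 0 + m 0 := by rw [add_zero]; exact h1
    exact (add_left_cancel h2).symm

end Pool.Agent.Helper66.EN
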